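import Pool.Agent.helper67DC.Join
import Pool.Graph.R_pool_sql_team_seeded_620a6dc7.Helper216_DC.Graph

/-! Joins of copies of the forty-vertex double-critical graph and single vertices. -/

namespace Pool.Agent.helper67DC

open SimpleGraph

variable {V W : Type}

abbrev G40 : SimpleGraph (Fin 40) := Pool.Agent.Helper216_DC.G

theorem Col.add_one {G : SimpleGraph V} {u v : V} {k : ℕ} (h : Col G {u, v}ᶜ k) :
    Col G {u}ᶜ (k + 1) := by
  classical
  obtain ⟨c, hc⟩ := h
  refine ⟨fun x => if x = v then k else c x, fun x hx => ⟨?_, ?_⟩⟩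
  · have hx' : x ≠ u := by simpa using hx
    dsimp only
    split_ifs with h2
    · omega
    · have := (hc x (by simp [hx', h2])).1
      omega
  · intro y hy hxy
    have hx' : x ≠ u := by simpa using hx
    have hy' : y ≠ u := by simpa using hy
    have hne := hxy.ne
    dsimp only
    by_cases h2 : x = v
    · have h4 : y ≠ v := fun e => hne (h2.trans e.symm)
      have := (hc y (by simp [hy', h4])).1
      rw [if_pos h2, if_neg h4]; omega
    · have hx := hc x (by simp [hx', h2])
      rw [if_neg h2]
      by_cases h4 : y = v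
      · rw [if_pos h4]; omega
      · rw [if_neg h4]
        exact hx.2 y (by simp [hy', h4]) hxy

theorem pair_col {x z : Fin 40} (h : G40.Adj x z) : Col G40 {x, z}ᶜ 14 :=
  col_iff.2 (Pool.Agent.Helper216_DC.pair_colorable h _ (by
    intro p hp
    simp only [Set.mem_compl_iff, Set.mem_insert_iff, Set.mem_singleton_iff, not_or] at hp
    exact hp))

theorem nbr : ∀ p : Fin 40, ∃ q : Fin 40, G40.Adj p q := by
  have hall : ∀ p : Fin 40, ∃ q : Fin 40, Pool.Agent.Helper216_DC.G.Adj p q := by
    decide +kernel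
  exact hall

theorem dc40 : DC G40 16 where
  col := by
    obtain ⟨q, hq⟩ := nbr 0
    exact Col.add_two (pair_col hq)
  min k hk := by
    by_contra hlt
    push Not at hlt
    exact Pool.Agent.Helper216_DC.not_colorable ((col_univ.1 hk).mono (by omega))
  vert u := by
    obtain ⟨q, hq⟩ := nbr u
    exact ⟨15, rfl, Col.add_one (pair_col hq)⟩
  edge u v huv := ⟨14, rfl, pair_col huv⟩

/-- Every independent set has at most three points, and some independent set has three. -/
structure Ind3 (G : SimpleGraph V) : Prop where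
  le : ∀ S : Set V, S.Finite → (∀ u ∈ S, ∀ v ∈ S, ¬ G.Adj u v) → S.ncard ≤ 3
  ex : ∃ S : Set V, S.Finite ∧ (∀ u ∈ S, ∀ v ∈ S, ¬ G.Adj u v) ∧ S.ncard = 3

theorem line_card : ∀ m ∈ Pool.Agent.Helper216_DC.lineList,
    (Finset.univ.filter (fun p : Fin 40 => m.testBit p.val = true)).card ≤ 3 := by
  decide +kernel

theorem ind40 : Ind3 G40 where
  le S hS h := by
    obtain ⟨m, hm, hSm⟩ := Pool.Agent.Helper216_DC.class_line S h
    refine le_trans ?_ (line_card m hm)
    rw [← Set.ncard_coe_finset]
    refine Set.ncard_le_ncard (fun p hp => ?_) (Finset.finite_toSet _)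
    simpa using hSm p hp
  ex := by
    refine ⟨{0, 3, 4}, Set.toFinite _, ?_, ?_⟩
    · have h : ∀ u ∈ ({0, 3, 4} : Finset (Fin 40)), ∀ v ∈ ({0, 3, 4} : Finset (Fin 40)),
          ¬ Pool.Agent.Helper216_DC.G.Adj u v := by decide +kernel
      intro u hu v hv
      exact h u (by simpa using hu) v (by simpa using hv)
    · have : ({0, 3, 4} : Set (Fin 40)) = (({0, 3, 4} : Finset (Fin 40)) : Set (Fin 40)) := by
        simp
      rw [this, Set.ncard_coe_finset]
      decide

theorem Ind3.join {G : SimpleGraph V} {H : SimpleGraph W} (hG : Ind3 G)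
    (hH : ∀ S : Set W, S.Finite → (∀ u ∈ S, ∀ v ∈ S, ¬ H.Adj u v) → S.ncard ≤ 3) :
    Ind3 (J G H) where
  le S hS h := by
    by_cases h1 : ∃ u : V, Sum.inl u ∈ S
    · obtain ⟨u, hu⟩ := h1
      have hS' : S = Sum.inl '' (Sum.inl ⁻¹' S) := by
        ext x
        constructor
        · intro hx
          rcases x with v | v
          · exact ⟨v, hx, rfl⟩
          · exact absurd J_lr (h _ hu _ hx)
        · rintro ⟨v, hv, rfl⟩
          exact hv
      rw [hS', Set.ncard_image_of_injective _ Sum.inl_injective]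
      exact hG.le _ (hS.preimage Sum.inl_injective.injOn) (fun a ha b hb hab => h _ ha _ hb hab)
    · push Not at h1
      have hS' : S = Sum.inr '' (Sum.inr ⁻¹' S) := by
        ext x
        constructor
        · intro hx
          rcases x with v | v
          · exact absurd hx (h1 v)
          · exact ⟨v, hx, rfl⟩
        · rintro ⟨v, hv, rfl⟩
          exact hv
      rw [hS', Set.ncard_image_of_injective _ Sum.inr_injective]
      exact hH _ (hS.preimage Sum.inr_injective.injOn) (fun a ha b hb hab => h _ ha _ hb hab)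
  ex := by
    obtain ⟨S, hS, h1, h2⟩ := hG.ex
    refine ⟨Sum.inl '' S, hS.image _, ?_, ?_⟩
    · rintro _ ⟨u, hu, rfl⟩ _ ⟨v, hv, rfl⟩ huv
      exact h1 u hu v hv huv
    · rw [Set.ncard_image_of_injective _ Sum.inl_injective, h2]

/-- The family, in the form used for the induction. -/
def Fam (n a : ℕ) : Prop :=
  ∃ (V : Type) (_ : Fintype V) (_ : Nonempty V) (G : SimpleGraph V),
    Fintype.card V = n + 24 * a ∧ DC G n ∧ G.Connected ∧ Ind3 G

theorem fam_base : Fam 16 1 :=
  ⟨Fin 40, inferInstance, inferInstance, G40, by simp, dc40,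
    Pool.Agent.Helper216_DC.G_connected, ind40⟩

theorem fam_vertex {n a : ℕ} (h : Fam n a) : Fam (n + 1) a := by
  obtain ⟨V, _, _, G, hc, hd, hcn, hi⟩ := h
  refine ⟨V ⊕ Unit, inferInstance, inferInstance, J G (⊤ : SimpleGraph Unit), ?_,
    hd.join DC.unit, join_conn _ _, hi.join ?_⟩
  · rw [Fintype.card_sum, hc]; simp; omega
  · intro S _ _
    refine le_trans (Set.ncard_le_card S) (by simp)

theorem fam_copy {n a : ℕ} (h : Fam n a) : Fam (n + 16) (a + 1) := by
  obtain ⟨V, _, _, G, hc, hd, hcn, hi⟩ := h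
  refine ⟨V ⊕ Fin 40, inferInstance, inferInstance, J G G40, ?_,
    hd.join dc40, join_conn _ _, hi.join ind40.le⟩
  rw [Fintype.card_sum, hc]; simp; omega

theorem fam (a m : ℕ) : Fam (16 * (a + 1) + m) (a + 1) := by
  induction m with
  | zero =>
    induction a with
    | zero => exact fam_base
    | succ a ih =>
      have := fam_copy ih
      have e : 16 * (a + 1) + 0 + 16 = 16 * (a + 1 + 1) + 0 := by ring
      rwa [e] at this
  | succ m ih => exact fam_vertex ih

theorem indepNum_eq [Fintype V] {G : SimpleGraph V} (h : Ind3 G) : G.indepNum = 3 := by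
  classical
  apply le_antisymm
  · obtain ⟨s, hs⟩ := G.exists_isNIndepSet_indepNum
    have h1 := h.le (s : Set V) (Finset.finite_toSet s) (fun u hu v hv huv =>
      hs.isIndepSet hu hv huv.ne huv)
    rw [Set.ncard_coe_finset, hs.card_eq] at h1
    exact h1
  · obtain ⟨S, hS, h1, h2⟩ := h.ex
    have h3 : G.IsIndepSet (hS.toFinset : Set V) := by
      intro u hu v hv _
      exact h1 u (hS.mem_toFinset.1 (Finset.mem_coe.1 hu)) v (hS.mem_toFinset.1 (Finset.mem_coe.1 hv))
    have h4 := h3.card_le_indepNum
    rw [← Set.ncard_eq_toFinset_card S hS, h2] at h4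
    exact h4

end Pool.Agent.helper67DC
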