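import Mathlib

namespace Pool.Agent.helper67DC

open SimpleGraph

variable {V W : Type}

/-- The join of two graphs. -/
def J (G : SimpleGraph V) (H : SimpleGraph W) : SimpleGraph (V ⊕ W) where
  Adj a b := match a, b with
    | Sum.inl u, Sum.inl v => G.Adj u v
    | Sum.inr u, Sum.inr v => H.Adj u v
    | Sum.inl _, Sum.inr _ => True
    | Sum.inr _, Sum.inl _ => True
  symm := ⟨fun a b h => by
    rcases a with a | a <;> rcases b with b | b <;> simp_all [SimpleGraph.adj_comm]⟩
  loopless := ⟨fun a h => by rcases a with a | a <;> simp_all⟩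

@[simp] theorem J_ll {G : SimpleGraph V} {H : SimpleGraph W} {u v : V} :
    (J G H).Adj (Sum.inl u) (Sum.inl v) ↔ G.Adj u v := Iff.rfl
@[simp] theorem J_rr {G : SimpleGraph V} {H : SimpleGraph W} {u v : W} :
    (J G H).Adj (Sum.inr u) (Sum.inr v) ↔ H.Adj u v := Iff.rfl
@[simp] theorem J_lr {G : SimpleGraph V} {H : SimpleGraph W} {u : V} {v : W} :
    (J G H).Adj (Sum.inl u) (Sum.inr v) := trivial
@[simp] theorem J_rl {G : SimpleGraph V} {H : SimpleGraph W} {u : V} {v : W} :
    (J G H).Adj (Sum.inr v) (Sum.inl u) := trivial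

/-- `k` colours suffice for the part `S` of `G`. -/
def Col (G : SimpleGraph V) (S : Set V) (k : ℕ) : Prop :=
  ∃ c : V → ℕ, ∀ u ∈ S, c u < k ∧ ∀ v ∈ S, G.Adj u v → c u ≠ c v

theorem col_iff {G : SimpleGraph V} {S : Set V} {k : ℕ} :
    Col G S k ↔ (G.induce S).Colorable k := by
  classical
  constructor
  · rintro ⟨c, hc⟩
    refine ⟨SimpleGraph.Coloring.mk (fun v => (⟨c v.1, (hc v.1 v.2).1⟩ : Fin k)) ?_⟩
    intro u v huv h
    exact (hc u.1 u.2).2 v.1 v.2 huv (congrArg Fin.val h)
  · rintro ⟨c⟩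
    refine ⟨fun v => if h : v ∈ S then (c ⟨v, h⟩).1 else 0, fun u hu => ⟨?_, fun v hv huv h => ?_⟩⟩
    · simp only [hu, dif_pos]; exact (c ⟨u, hu⟩).2
    · simp only [hu, hv, dif_pos] at h
      exact c.valid (show (G.induce S).Adj ⟨u, hu⟩ ⟨v, hv⟩ from huv) (Fin.ext h)

theorem col_univ {G : SimpleGraph V} {k : ℕ} : Col G Set.univ k ↔ G.Colorable k := by
  constructor
  · rintro ⟨c, hc⟩
    refine ⟨SimpleGraph.Coloring.mk (fun v => (⟨c v, (hc v trivial).1⟩ : Fin k)) ?_⟩
    intro u v huv h
    exact (hc u trivial).2 v trivial huv (congrArg Fin.val h)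
  · rintro ⟨c⟩
    exact ⟨fun v => (c v).1, fun u _ => ⟨(c u).2, fun v _ huv h => c.valid huv (Fin.ext h)⟩⟩

theorem col_join {G : SimpleGraph V} {H : SimpleGraph W} {S : Set V} {T : Set W} {a b : ℕ}
    (h1 : Col G S a) (h2 : Col H T b) : Col (J G H) (Sum.inl '' S ∪ Sum.inr '' T) (a + b) := by
  obtain ⟨c, hc⟩ := h1
  obtain ⟨d, hd⟩ := h2
  refine ⟨Sum.elim c (fun w => a + d w), ?_⟩
  rintro (u | u) hu
  · have hu' : u ∈ S := by simpa using hu
    refine ⟨by simp only [Sum.elim_inl]; have := (hc u hu').1; omega, ?_⟩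
    rintro (v | v) hv huv
    · have hv' : v ∈ S := by simpa using hv
      exact (hc u hu').2 v hv' huv
    · simp only [Sum.elim_inl, Sum.elim_inr]
      have := (hc u hu').1; omega
  · have hu' : u ∈ T := by simpa using hu
    refine ⟨by simp only [Sum.elim_inr]; have := (hd u hu').1; omega, ?_⟩
    rintro (v | v) hv huv
    · have hv' : v ∈ S := by simpa using hv
      simp only [Sum.elim_inl, Sum.elim_inr]
      have := (hc v hv').1; omega
    · have hv' : v ∈ T := by simpa using hv
      have := (hd u hu').2 v hv' huv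
      simp only [Sum.elim_inr]
      omega

theorem Col.mono {G : SimpleGraph V} {S S' : Set V} {k : ℕ} (h : Col G S k) (hs : S' ⊆ S) :
    Col G S' k := by
  obtain ⟨c, hc⟩ := h
  exact ⟨c, fun u hu => ⟨(hc u (hs hu)).1, fun v hv => (hc u (hs hu)).2 v (hs hv)⟩⟩

/-- Colouring with colours in a finite set `A`. -/
theorem col_of_finset {G : SimpleGraph V} (c : V → ℕ) (A : Finset ℕ)
    (h : ∀ u, c u ∈ A) (hv : ∀ u v, G.Adj u v → c u ≠ c v) : Col G Set.univ A.card := by
  refine ⟨fun v => (A.equivFin ⟨c v, h v⟩).1, fun u _ => ⟨(A.equivFin ⟨c u, h u⟩).2,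
    fun v _ huv he => ?_⟩⟩
  have := A.equivFin.injective (Fin.ext he)
  exact hv u v huv (congrArg Subtype.val this)

theorem join_split [Fintype V] [Fintype W] {G : SimpleGraph V} {H : SimpleGraph W} {k : ℕ}
    (h : Col (J G H) Set.univ k) :
    ∃ a b, a + b ≤ k ∧ Col G Set.univ a ∧ Col H Set.univ b := by
  classical
  obtain ⟨c, hc⟩ := h
  refine ⟨(Finset.univ.image fun v : V => c (Sum.inl v)).card,
    (Finset.univ.image fun v : W => c (Sum.inr v)).card, ?_, ?_, ?_⟩
  · rw [← Finset.card_union_of_disjoint]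
    · refine (Finset.card_le_card (t := Finset.range k) ?_).trans (by simp)
      intro x hx
      simp only [Finset.mem_union, Finset.mem_image, Finset.mem_univ, true_and] at hx
      rw [Finset.mem_range]
      rcases hx with ⟨v, rfl⟩ | ⟨v, rfl⟩
      · exact (hc _ trivial).1
      · exact (hc _ trivial).1
    · rw [Finset.disjoint_left]
      intro x hx hy
      simp only [Finset.mem_image, Finset.mem_univ, true_and] at hx hy
      obtain ⟨u, rfl⟩ := hx
      obtain ⟨v, hv⟩ := hy
      exact (hc (Sum.inr v) trivial).2 (Sum.inl u) trivial J_rl hv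
  · exact col_of_finset _ _ (fun u => Finset.mem_image_of_mem _ (Finset.mem_univ u))
      (fun u v huv => (hc (Sum.inl u) trivial).2 (Sum.inl v) trivial huv)
  · exact col_of_finset _ _ (fun u => Finset.mem_image_of_mem _ (Finset.mem_univ u))
      (fun u v huv => (hc (Sum.inr u) trivial).2 (Sum.inr v) trivial huv)

/-- Double criticality in colouring form (with the vertex condition). -/
structure DC (G : SimpleGraph V) (n : ℕ) : Prop where
  col : Col G Set.univ n
  min : ∀ k, Col G Set.univ k → n ≤ k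
  vert : ∀ u, ∃ k, k + 1 = n ∧ Col G {u}ᶜ k
  edge : ∀ u v, G.Adj u v → ∃ k, k + 2 = n ∧ Col G {u, v}ᶜ k

theorem DC.join [Fintype V] [Fintype W] {G : SimpleGraph V} {H : SimpleGraph W} {n m : ℕ}
    (hG : DC G n) (hH : DC H m) : DC (J G H) (n + m) where
  col := (col_join hG.col hH.col).mono (by
    rintro (u | u) _
    · exact Or.inl ⟨u, trivial, rfl⟩
    · exact Or.inr ⟨u, trivial, rfl⟩)
  min k hk := by
    obtain ⟨a, b, hab, ha, hb⟩ := join_split hk
    have := hG.min a ha
    have := hH.min b hb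
    omega
  vert u := by
    rcases u with u | u
    · obtain ⟨k, hk, h⟩ := hG.vert u
      refine ⟨k + m, by omega, (col_join h hH.col).mono ?_⟩
      rintro (v | v) hv
      · exact Or.inl ⟨v, by simpa using hv, rfl⟩
      · exact Or.inr ⟨v, trivial, rfl⟩
    · obtain ⟨k, hk, h⟩ := hH.vert u
      refine ⟨n + k, by omega, (col_join hG.col h).mono ?_⟩
      rintro (v | v) hv
      · exact Or.inl ⟨v, trivial, rfl⟩
      · exact Or.inr ⟨v, by simpa using hv, rfl⟩
  edge u v huv := by
    rcases u with u | u <;> rcases v with v | v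
    · obtain ⟨k, hk, h⟩ := hG.edge u v huv
      refine ⟨k + m, by omega, (col_join h hH.col).mono ?_⟩
      rintro (w | w) hw
      · exact Or.inl ⟨w, by simpa using hw, rfl⟩
      · exact Or.inr ⟨w, trivial, rfl⟩
    · obtain ⟨k, hk, h⟩ := hG.vert u
      obtain ⟨l, hl, h'⟩ := hH.vert v
      refine ⟨k + l, by omega, (col_join h h').mono ?_⟩
      rintro (w | w) hw
      · exact Or.inl ⟨w, by simpa using hw, rfl⟩
      · exact Or.inr ⟨w, by simpa using hw, rfl⟩
    · obtain ⟨k, hk, h⟩ := hG.vert v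
      obtain ⟨l, hl, h'⟩ := hH.vert u
      refine ⟨k + l, by omega, (col_join h h').mono ?_⟩
      rintro (w | w) hw
      · exact Or.inl ⟨w, by simpa using hw, rfl⟩
      · exact Or.inr ⟨w, by simpa using hw, rfl⟩
    · obtain ⟨k, hk, h⟩ := hH.edge u v huv
      refine ⟨n + k, by omega, (col_join hG.col h).mono ?_⟩
      rintro (w | w) hw
      · exact Or.inl ⟨w, trivial, rfl⟩
      · exact Or.inr ⟨w, by simpa using hw, rfl⟩

theorem join_conn [Nonempty V] [Nonempty W] (G : SimpleGraph V) (H : SimpleGraph W) :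
    (J G H).Connected := by
  obtain ⟨v0⟩ := ‹Nonempty V›
  obtain ⟨w0⟩ := ‹Nonempty W›
  have : Nonempty (V ⊕ W) := ⟨Sum.inl v0⟩
  have h1 : ∀ x : V ⊕ W, (J G H).Reachable x (Sum.inl v0) := by
    rintro (v | w)
    · exact (Adj.reachable (J_lr (v := w0))).trans (Adj.reachable J_rl)
    · exact Adj.reachable J_rl
  exact SimpleGraph.Connected.mk (fun x y => (h1 x).trans (h1 y).symm)

theorem DC.unit : DC (⊤ : SimpleGraph Unit) 1 where
  col := ⟨fun _ => 0, fun u _ => ⟨by norm_num, fun v _ h => absurd (Subsingleton.elim u v) h.ne⟩⟩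
  min k hk := by
    obtain ⟨c, hc⟩ := hk
    have := (hc () trivial).1
    omega
  vert u := ⟨0, rfl, ⟨fun _ => 0, fun v hv => absurd (Subsingleton.elim v u) hv⟩⟩
  edge u v h := absurd (Subsingleton.elim u v) h.ne

theorem DC.chrom {G : SimpleGraph V} {n : ℕ} (h : DC G n) : G.chromaticNumber = n := by
  apply le_antisymm
  · exact SimpleGraph.Colorable.chromaticNumber_le (col_univ.1 h.col)
  · by_contra hlt
    push Not at hlt
    have hne : G.chromaticNumber ≠ ⊤ := ne_top_of_lt hlt
    obtain ⟨m, hm⟩ := ENat.ne_top_iff_exists.1 hne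
    have hc : G.Colorable m := by
      rw [← SimpleGraph.chromaticNumber_le_iff_colorable, ← hm]
    have h1 := h.min m (col_univ.2 hc)
    rw [← hm] at hlt
    have h2 : m < n := by exact_mod_cast hlt
    omega

/-- Adding back two vertices costs at most two colours. -/
theorem Col.add_two {G : SimpleGraph V} {u v : V} {k : ℕ} (h : Col G {u, v}ᶜ k) :
    Col G Set.univ (k + 2) := by
  classical
  obtain ⟨c, hc⟩ := h
  refine ⟨fun x => if x = u then k else if x = v then k + 1 else c x, fun x _ => ⟨?_, ?_⟩⟩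
  · dsimp only
    split_ifs with h1 h2
    · omega
    · omega
    · have := (hc x (by simp [h1, h2])).1
      omega
  · intro y _ hxy
    have hne := hxy.ne
    dsimp only
    by_cases h1 : x = u
    · have h3 : y ≠ u := fun e => hne (h1.trans e.symm)
      by_cases h4 : y = v
      · rw [if_pos h1, if_neg h3, if_pos h4]; omega
      · have := (hc y (by simp [h3, h4])).1
        rw [if_pos h1, if_neg h3, if_neg h4]
        omega
    · by_cases h2 : x = v
      · have h4 : y ≠ v := fun e => hne (h2.trans e.symm)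
        by_cases h3 : y = u
        · rw [if_neg h1, if_pos h2, if_pos h3]
          omega
        · have := (hc y (by simp [h3, h4])).1
          rw [if_neg h1, if_pos h2, if_neg h3, if_neg h4]
          omega
      · have hx := hc x (by simp [h1, h2])
        rw [if_neg h1, if_neg h2]
        by_cases h3 : y = u
        · rw [if_pos h3]; omega
        · by_cases h4 : y = v
          · rw [if_neg h3, if_pos h4]; omega
          · rw [if_neg h3, if_neg h4]
            exact hx.2 y (by simp [h3, h4]) hxy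

theorem DC.chrom_edge {G : SimpleGraph V} {n : ℕ} (h : DC G n) {u v : V} (huv : G.Adj u v) :
    (G.induce ({u, v}ᶜ : Set V)).chromaticNumber + 2 = n := by
  obtain ⟨k, hk, hc⟩ := h.edge u v huv
  have h1 : (G.induce ({u, v}ᶜ : Set V)).chromaticNumber = k := by
    apply le_antisymm
    · exact SimpleGraph.Colorable.chromaticNumber_le (col_iff.1 hc)
    · by_contra hlt
      push Not at hlt
      have hne : (G.induce ({u, v}ᶜ : Set V)).chromaticNumber ≠ ⊤ := ne_top_of_lt hlt
      obtain ⟨m, hm⟩ := ENat.ne_top_iff_exists.1 hne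
      have hcm : (G.induce ({u, v}ᶜ : Set V)).Colorable m := by
        rw [← SimpleGraph.chromaticNumber_le_iff_colorable, ← hm]
      have h1 := h.min (m + 2) (Col.add_two (col_iff.2 hcm))
      rw [← hm] at hlt
      have h2 : m < k := by exact_mod_cast hlt
      omega
  rw [h1, ← hk]
  push_cast
  rfl

end Pool.Agent.helper67DC
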